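import Pool.Agent.H16VC.Neg
import Pool.Agent.Results.MP_5607ba_lc.HyperbolicIsometries

set_option autoImplicit false

/-!
# The countable-or-perfect dichotomy for countable metric spaces with a given set of distances

Let `D` be any set of positive real numbers. We consider the countably infinite metric spaces all of
whose distances are in `D`, that is, metrics on `ℕ`, and the action of the group of the permutations
of `ℕ`. If `2 * r < s` for all `r < s` in `D`, then every invariant Borel set of such metrics has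
countably many or perfectly many orbits, even if the metric spaces carry isometric actions of a
countable group and unary predicates. Otherwise, this dichotomy for the metrics with distances in `D`
is equivalent to the dichotomy for all invariant Borel sets of countable structures.
-/

namespace Pool.Agent.Results.MP_5607ba_lc.DistanceSets

/-- Relational structures on `ℕ` with relations of arities `a 0, a 1, ...`. -/
abbrev Str (a : ℕ → ℕ) : Type := (i : ℕ) → (Fin (a i) → ℕ) → Bool

/-- Isomorphism of structures. -/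
def Iso {a : ℕ → ℕ} (x y : Str a) : Prop :=
  ∃ σ : Equiv.Perm ℕ, ∀ (i : ℕ) (v : Fin (a i) → ℕ), y i (⇑σ ∘ v) = x i v

/-- `x` is a metric on `ℕ` and all distances of different points are in `D`. -/
structure MetricIn (D : Set ℝ) (x : ℕ → ℕ → ℝ) : Prop where
  zero : ∀ m n, x m n = 0 ↔ m = n
  symm : ∀ m n, x m n = x n m
  triangle : ∀ m n k, x m k ≤ x m n + x n k
  mem : ∀ m n, m ≠ n → x m n ∈ D

/-- Isometry; the two metrics are in one orbit of the action of the Polish group of permutations of
`ℕ`. -/
def Isometric (x y : ℕ → ℕ → ℝ) : Prop := ∃ σ : Equiv.Perm ℕ, ∀ m n, y (σ m) (σ n) = x m n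

/-- Distances `x.1`, a function `x.2.1 γ` for every `γ` in `Γ`, and unary predicates `x.2.2 i`. -/
abbrev Structures (Γ : Type) : Type := (ℕ → ℕ → ℝ) × (Γ → ℕ → ℕ) × (ℕ → ℕ → Bool)

/-- `x.1` is a metric with distances in `D`, and `x.2.1` is an action of `Γ` by isometries. -/
structure IsometricAction {Γ : Type} [Group Γ] (D : Set ℝ) (x : Structures Γ) : Prop where
  metric : MetricIn D x.1
  one : ∀ m, x.2.1 1 m = m
  mul : ∀ γ δ m, x.2.1 (γ * δ) m = x.2.1 γ (x.2.1 δ m)
  isometry : ∀ γ a b, x.1 (x.2.1 γ a) (x.2.1 γ b) = x.1 a b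

/-- Equivariant isometry which preserves the predicates. -/
def Equivariant {Γ : Type} (x y : Structures Γ) : Prop :=
  ∃ σ : Equiv.Perm ℕ, (∀ a b, y.1 (σ a) (σ b) = x.1 a b) ∧
    (∀ γ m, y.2.1 γ (σ m) = σ (x.2.1 γ m)) ∧ ∀ i m, y.2.2 i (σ m) = x.2.2 i m

/-- The dichotomy for the members of `K`: every Borel set of members of `K`, invariant under `E`, has
countably many `E`-classes or contains a continuous family, indexed by the Cantor space, of pairwise
inequivalent members. -/
def Dichotomy {X : Type} [TopologicalSpace X] [MeasurableSpace X] (E : X → X → Prop)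
    (K : X → Prop) : Prop :=
  ∀ B : Set X, MeasurableSet B → (∀ x y, E x y → (x ∈ B ↔ y ∈ B)) → (∀ x ∈ B, K x) →
    (∃ f : ℕ → X, ∀ x ∈ B, ∃ n, E (f n) x) ∨
    (∃ g : (ℕ → Bool) → X, Continuous g ∧ (∀ c, g c ∈ B) ∧ ∀ c d, E (g c) (g d) → c = d)

/-- `K` is faithfully complete: for every invariant Borel class `B` of structures (in any countable
relational language) there are an invariant Borel class `B'` of members of `K` and a Borel map `F`
from `B'` to `B` that induces a bijection of the isomorphism types. -/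
def FaithfullyComplete {Y : Type} [MeasurableSpace Y] (E : Y → Y → Prop) (K : Y → Prop) : Prop :=
  ∀ (a : ℕ → ℕ) (B : Set (Str a)), MeasurableSet B → (∀ x y, Iso x y → (x ∈ B ↔ y ∈ B)) →
    ∃ (B' : Set Y) (F : Y → Str a), MeasurableSet B' ∧ (∀ y z, E y z → (y ∈ B' ↔ z ∈ B')) ∧
      (∀ y ∈ B', K y) ∧ Measurable F ∧ (∀ y ∈ B', F y ∈ B) ∧
      (∀ y ∈ B', ∀ z ∈ B', E y z ↔ Iso (F y) (F z)) ∧ ∀ x ∈ B, ∃ y ∈ B', Iso x (F y)

/-- Any two different elements of `D` differ by a factor of more than two. -/
def Sparse (D : Set ℝ) : Prop := ∀ r ∈ D, ∀ s ∈ D, r < s → 2 * r < s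

open Pool.Agent

private theorem ultra {D : Set ℝ} (hD : ∀ r ∈ D, 0 < r) (hS : Sparse D) {x : ℕ → ℕ → ℝ}
    (hx : MetricIn D x) (a b c : ℕ) : x a c ≤ max (x a b) (x b c) := by
  have hpos : ∀ m n, 0 ≤ x m n := by
    intro m n
    by_cases h : m = n
    · rw [(hx.zero m n).2 h]
    · exact (hD _ (hx.mem m n h)).le
  by_contra hlt
  push Not at hlt
  have hac : a ≠ c := by
    rintro rfl
    rw [(hx.zero a a).2 rfl] at hlt
    exact absurd hlt (not_lt.2 (le_max_of_le_left (hpos _ _)))
  have h1 := hx.triangle a b c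
  by_cases hab : a = b
  · subst hab
    rw [(hx.zero a a).2 rfl] at h1 hlt
    exact absurd hlt (not_lt.2 (le_max_of_le_right (by linarith)))
  by_cases hbc : b = c
  · subst hbc
    exact absurd hlt (not_lt.2 (le_max_left _ _))
  have h2 := hS _ (hx.mem a b hab) _ (hx.mem a c hac) ((le_max_left _ _).trans_lt hlt)
  have h3 := hS _ (hx.mem b c hbc) _ (hx.mem a c hac) ((le_max_right _ _).trans_lt hlt)
  linarith

private theorem four {x : ℕ → ℕ → ℝ} (hs : ∀ m n, x m n = x n m)
    (hu : ∀ a b c, x a c ≤ max (x a b) (x b c)) (a b c d : ℕ) :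
    x a b + x c d ≤ max (x a c + x b d) (x a d + x b c) := by
  -- the largest of the six distances occurs twice in a good position
  have h1 := hu a c b
  have h2 := hu a d b
  have h3 := hu c a d
  have h4 := hu c b d
  rw [hs c b] at h1
  rw [hs d b] at h2
  rw [hs c a] at h3
  rw [hs c b] at h4
  rcases le_max_iff.1 h1 with h1 | h1 <;> rcases le_max_iff.1 h2 with h2 | h2 <;>
    rcases le_max_iff.1 h3 with h3 | h3 <;> rcases le_max_iff.1 h4 with h4 | h4 <;>
    first
    | exact le_max_of_le_left (by linarith)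
    | exact le_max_of_le_right (by linarith)
    | (rcases le_total (x a b) (x c d) with h5 | h5 <;>
        first
        | exact le_max_of_le_left (by linarith)
        | exact le_max_of_le_right (by linarith))

private theorem pos {D : Set ℝ} (hD : ∀ r ∈ D, 0 < r) (hS : Sparse D) (Γ : Type) [Group Γ]
    [Countable Γ] : Dichotomy (Equivariant (Γ := Γ)) (IsometricAction D) := by
  intro B hB hinv hK
  rcases HyperbolicIsometries.result Γ B hB (fun x hx => by
    have h := hK x hx
    exact ⟨h.metric.zero, h.metric.symm, four h.metric.symm (ultra hD hS h.metric), h.one, h.mul,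
      h.isometry⟩) (fun x hx y σ h => (hinv x y ⟨σ, h⟩).1 hx) with ⟨f, hf⟩ | ⟨g, h1, h2, h3⟩
  · exact Or.inl ⟨f, hf⟩
  · exact Or.inr ⟨g, h1, h2, h3⟩

private theorem pv {X : Type} [TopologicalSpace X] [MeasurableSpace X] (E : X → X → Prop)
    (K : X → Prop) : Dichotomy E K ↔ W889.VC.VCof True E K := H16VC.pv_iff E K

private theorem cs_of {X : Type} [TopologicalSpace X] [SecondCountableTopology X] [T0Space X]
    [MeasurableSpace X] [BorelSpace X] : MeasurableSpace.CountablySeparated X := inferInstance

private theorem plain {D : Set ℝ} (h : Dichotomy (Equivariant (Γ := Unit)) (IsometricAction D)) :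
    Dichotomy Isometric (MetricIn D) := by
  rw [pv] at h ⊢
  have b0 : BorelSpace (ℕ → ℝ) := Pi.borelSpace
  have b1 : BorelSpace (ℕ → ℕ → ℝ) := Pi.borelSpace
  have b2 : BorelSpace (ℕ → ℕ) := Pi.borelSpace
  have b3 : BorelSpace (Unit → ℕ → ℕ) := Pi.borelSpace
  have b4 : BorelSpace (ℕ → Bool) := Pi.borelSpace
  have b5 : BorelSpace (ℕ → ℕ → Bool) := Pi.borelSpace
  have b6 : BorelSpace ((Unit → ℕ → ℕ) × (ℕ → ℕ → Bool)) := Prod.borelSpace
  have b7 : BorelSpace (Structures Unit) := Prod.borelSpace
  have t1 : T0Space (Structures Unit) := inferInstance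
  have t2 : SecondCountableTopology (Structures Unit) := inferInstance
  have t3 : MeasurableSpace.CountablySeparated (Structures Unit) := cs_of
  refine H16VC.transfer (E' := Equivariant (Γ := Unit))
    (fun d : ℕ → ℕ → ℝ => ((d, fun _ m => m, fun _ _ => false) : Structures Unit))
    (measurable_id.prodMk measurable_const) ?_ ?_ ?_ ?_ ?_ (fun y hy => ?_) h
  · intro d d' hdd
    exact congrArg Prod.fst hdd
  · rintro x y ⟨σ, h1, h2, h3⟩
    refine ⟨σ.symm, fun m n => ?_, fun γ m => ?_, fun i m => ?_⟩
    · rw [← h1, σ.apply_symm_apply, σ.apply_symm_apply]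
    · rw [Equiv.eq_symm_apply, ← h2, σ.apply_symm_apply]
    · rw [← h3, σ.apply_symm_apply]
  · rintro x y ⟨σ, hσ⟩
    exact ⟨σ.symm, fun m n => by rw [← hσ, σ.apply_symm_apply, σ.apply_symm_apply]⟩
  · rintro x y ⟨σ, hσ⟩
    exact ⟨σ, hσ, fun _ _ => rfl, fun _ _ => rfl⟩
  · rintro x ⟨y, y', y''⟩ ⟨σ, h1, h2, h3⟩
    refine ⟨y, ?_, σ, h1⟩
    have e1 : y' = fun _ m => m := by
      funext γ m
      have := h2 γ (σ.symm m)
      rw [σ.apply_symm_apply] at this
      exact this
    have e2 : y'' = fun _ _ => false := by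
      funext i m
      have := h3 i (σ.symm m)
      rw [σ.apply_symm_apply] at this
      exact this
    rw [e1, e2]
  · exact ⟨hy, fun _ => rfl, fun _ _ _ => rfl, fun _ _ _ => rfl⟩

private theorem neg {D : Set ℝ} (hD : ∀ r ∈ D, 0 < r) (hS : ¬ Sparse D) :
    FaithfullyComplete Isometric (MetricIn D) := by
  unfold Sparse at hS
  push Not at hS
  obtain ⟨r, hr, s, hs, hrs, h2⟩ := hS
  have hr0 := hD r hr
  refine H16VC.faithful_code (C := ℝ) 0 r s hrs.ne (E := Isometric) (fun x y => Iff.rfl) ?_
  intro y hy
  have b1 : ∀ m n, m ≠ n → r ≤ (if m = n then (0 : ℝ) else if y m n = true then s else r) := by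
    intro m n hmn
    rw [if_neg hmn]
    split_ifs <;> linarith
  have b2 : ∀ m n, (if m = n then (0 : ℝ) else if y m n = true then s else r) ≤ s := by
    intro m n
    split_ifs <;> linarith
  refine ⟨fun m n => ?_, fun m n => ?_, fun m n k => ?_, fun m n hmn => ?_⟩
  · constructor
    · intro h
      by_contra hmn
      have := b1 m n hmn
      linarith
    · rintro rfl
      simp
  · rw [hy.symm m n]
    by_cases h : m = n
    · simp [h]
    · simp [h, Ne.symm h]
  · by_cases h1 : m = n
    · subst h1
      simp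
    by_cases h3 : n = k
    · subst h3
      simp
    have := b1 m n h1
    have := b1 n k h3
    have := b2 m k
    linarith
  · simp only [if_neg hmn]
    split_ifs
    · exact hs
    · exact hr

/-- Codes of distance matrices: the relations `x m n < q`, `q` rational. -/
private theorem down {K : (ℕ → ℕ → ℝ) → Prop}
    (h : ∀ a : ℕ → ℕ, Dichotomy (Iso (a := a)) (fun _ => True)) : Dichotomy Isometric K := by
  have h3 := h fun _ => 2
  rw [pv] at h3 ⊢
  obtain ⟨q, hq⟩ := exists_surjective_nat ℚ
  refine H16VC.transfer (E' := Iso (a := fun _ => 2))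
    (fun d i t => decide (d (t 0) (t 1) < (q i : ℝ))) ?_ ?_ ?_ ?_ ?_ ?_ (fun _ _ => trivial) h3
  · refine measurable_pi_iff.2 fun i => measurable_pi_iff.2 fun t => ?_
    have h1 : Measurable fun c : ℕ → ℕ → ℝ => c (t 0) (t 1) :=
      (measurable_pi_apply (t 1)).comp (measurable_pi_apply (t 0))
    refine measurable_to_bool ?_
    have h3 : (fun d : ℕ → ℕ → ℝ => decide (d (t 0) (t 1) < (q i : ℝ))) ⁻¹' {true} =
        {d | d (t 0) (t 1) < (q i : ℝ)} := by
      ext d
      simp
    rw [h3]
    exact measurableSet_lt h1 measurable_const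
  · intro d d' hdd
    funext m n
    have key : ∀ i, d m n < (q i : ℝ) ↔ d' m n < (q i : ℝ) := by
      intro i
      have := congrFun (congrFun hdd i) ![m, n]
      have h2 : decide (d m n < (q i : ℝ)) = decide (d' m n < (q i : ℝ)) := this
      rwa [decide_eq_decide] at h2
    rcases lt_trichotomy (d m n) (d' m n) with h1 | h1 | h1
    · obtain ⟨p, h4, h5⟩ := exists_rat_btwn h1
      obtain ⟨i, rfl⟩ := hq p
      exact absurd ((key i).1 h4) (not_lt.2 h5.le)
    · exact h1
    · obtain ⟨p, h4, h5⟩ := exists_rat_btwn h1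
      obtain ⟨i, rfl⟩ := hq p
      exact absurd ((key i).2 h4) (not_lt.2 h5.le)
  · rintro x y ⟨σ, hσ⟩
    refine ⟨σ.symm, fun i v => ?_⟩
    rw [← hσ i]
    congr 1
    funext j
    simp
  · rintro x y ⟨σ, hσ⟩
    exact ⟨σ.symm, fun m n => by rw [← hσ, σ.apply_symm_apply, σ.apply_symm_apply]⟩
  · rintro x y ⟨σ, hσ⟩
    refine ⟨σ, fun i v => ?_⟩
    show decide (y (σ (v 0)) (σ (v 1)) < (q i : ℝ)) = decide (x (v 0) (v 1) < (q i : ℝ))
    rw [hσ]
  · rintro y x' ⟨σ, hσ⟩
    refine ⟨fun m n => y (σ.symm m) (σ.symm n), ?_, σ, fun m n => by simp⟩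
    funext i v
    have h1 := hσ i (⇑σ.symm ∘ v)
    have h2 : ⇑σ ∘ (⇑σ.symm ∘ v) = v := by
      funext j
      simp
    rw [h2] at h1
    rw [h1]
    rfl

/-- Let `D` be a set of positive real numbers. (1) If any two different elements of `D` differ by a
factor of more than two, the dichotomy holds for the metrics on `ℕ` with distances in `D`, and also
with an isometric action of a countable group and with unary predicates. (2) Otherwise the metrics on
`ℕ` with distances in `D` are faithfully complete. (3) So the dichotomy for the metrics on `ℕ` with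
distances in `D` is true if any two different elements of `D` differ by a factor of more than two, and
equivalent to the dichotomy for all countable structures otherwise. -/
theorem result (D : Set ℝ) (hD : ∀ r ∈ D, 0 < r) :
    (Sparse D → Dichotomy Isometric (MetricIn D) ∧ ∀ (Γ : Type) [Group Γ] [Countable Γ],
      Dichotomy (Equivariant (Γ := Γ)) (IsometricAction D)) ∧
    (¬ Sparse D → FaithfullyComplete Isometric (MetricIn D)) ∧
    (Dichotomy Isometric (MetricIn D) ↔ Sparse D ∨
      ∀ a : ℕ → ℕ, Dichotomy (Iso (a := a)) (fun _ => True)) := by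
  have h1 : Sparse D → Dichotomy Isometric (MetricIn D) := fun hS => plain (pos hD hS Unit)
  refine ⟨fun hS => ⟨h1 hS, fun Γ _ _ => pos hD hS Γ⟩, fun hS => neg hD hS, fun h => ?_, ?_⟩
  · by_cases hS : Sparse D
    · exact Or.inl hS
    · right
      intro a
      rw [pv] at h ⊢
      have h3 : W889.VC.Faithful Isometric (MetricIn D) := neg hD hS
      exact h3.vaught True h a
  · rintro (h | h)
    · exact h1 h
    · exact down h

end Pool.Agent.Results.MP_5607ba_lc.DistanceSets
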