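import Pool.Agent.H87IV.Bull
import Pool.Agent.W889.VC.Coh2

set_option autoImplicit false

/-!
# Interval orders with one forbidden suborder

`Sym(ℕ)` acts on the binary relations on `ℕ`. For an order `H` we consider the interval orders on `ℕ`
without a suborder isomorphic to `H`.

(1) If `H` is not slim, then these interval orders are faithfully complete; so the
countable-or-perfect dichotomy for them is equivalent to the dichotomy for all countable structures.
`H` is slim if it is an interval order with elements `a`, `c` such that `x = a` or `y = c` whenever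
`x < y`. There is no restriction on the cardinality of `H`.

(2) If `H` is finite and slim and has no suborder `N`, or if `H` is a finite suborder of the bull
`a < p < c`, `a < x`, `y < c` with isolated points, then the dichotomy is true for them, also with
unary predicates, and also for all relations whose infinite prime parts are such interval orders.

So for finite `H` only the slim orders with a suborder `N` which are not suborders of the bull with
isolated points remain open; the smallest of them have five elements.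

Proof. (1) Arbitrary structures are coded by rows, columns and points, in four ways: the rows are a
chain or an antichain, and so are the columns. An order which embeds in members of all four classes
is slim. (2) Interval orders without a slim order without `N` have bounded nesting; a prime
interval order with many nested intervals contains a bull with isolated points, which is found by
looking at the module of the elements inside one of the nested intervals and right of all
elements crossing its left end. For bounded nesting the dichotomy is in the starting files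
(`PermutationAndIntervalGraphs`).
-/

namespace Pool.Agent.Results.MP_5607ba_lc.ForbiddenSuborder

/-- Relational structures on `ℕ` with relations of arities `a 0, a 1, ...`. -/
abbrev Str (a : ℕ → ℕ) : Type := (i : ℕ) → (Fin (a i) → ℕ) → Bool

/-- Isomorphism of structures. -/
def Iso {a : ℕ → ℕ} (x y : Str a) : Prop :=
  ∃ σ : Equiv.Perm ℕ, ∀ (i : ℕ) (v : Fin (a i) → ℕ), y i (⇑σ ∘ v) = x i v

/-- Binary relations on `ℕ`. -/
abbrev Rel : Type := ℕ → ℕ → Bool

/-- Isomorphism of binary relations. -/
def RelIso (x y : Rel) : Prop := ∃ σ : Equiv.Perm ℕ, ∀ m n, y (σ m) (σ n) = x m n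

/-- Binary relations with countably many unary predicates. -/
abbrev URel : Type := Rel × (ℕ → ℕ → Bool)

/-- Isomorphism with unary predicates. -/
def UIso (x y : URel) : Prop :=
  ∃ σ : Equiv.Perm ℕ, (∀ m n, y.1 (σ m) (σ n) = x.1 m n) ∧ ∀ i m, y.2 i (σ m) = x.2 i m

/-- The countable-or-perfect dichotomy for the members of `K`: every Borel set of members of `K`,
invariant under `E`, meets countably many `E`-classes or contains a continuous family, indexed by the
Cantor space, of pairwise inequivalent members. -/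
def Dichotomy {X : Type} [TopologicalSpace X] [MeasurableSpace X] (E : X → X → Prop)
    (K : X → Prop) : Prop :=
  ∀ B : Set X, MeasurableSet B → (∀ x y, E x y → (x ∈ B ↔ y ∈ B)) → (∀ x ∈ B, K x) →
    (∃ f : ℕ → X, ∀ x ∈ B, ∃ n, E (f n) x) ∨
    (∃ g : (ℕ → Bool) → X, Continuous g ∧ (∀ c, g c ∈ B) ∧ ∀ c d, E (g c) (g d) → c = d)

/-- `K` is faithfully complete: for every invariant Borel set `B` of structures (in any countable
relational language) there are an invariant Borel set `B'` of members of `K` and a Borel map `F`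
from `B'` to `B` that induces a bijection of the isomorphism types. -/
def FaithfullyComplete {Y : Type} [MeasurableSpace Y] (E : Y → Y → Prop) (K : Y → Prop) : Prop :=
  ∀ (a : ℕ → ℕ) (B : Set (Str a)), MeasurableSet B → (∀ x y, Iso x y → (x ∈ B ↔ y ∈ B)) →
    ∃ (B' : Set Y) (F : Y → Str a), MeasurableSet B' ∧ (∀ y z, E y z → (y ∈ B' ↔ z ∈ B')) ∧
      (∀ y ∈ B', K y) ∧ Measurable F ∧ (∀ y ∈ B', F y ∈ B) ∧
      (∀ y ∈ B', ∀ z ∈ B', E y z ↔ Iso (F y) (F z)) ∧ ∀ x ∈ B, ∃ y ∈ B', Iso x (F y)

/-- Interval orders: irreflexive, and `a < b`, `c < d` imply `a < d` or `c < b`. -/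
structure IntervalOrder {V : Type} (r : V → V → Prop) : Prop where
  irrefl : ∀ u, ¬ r u u
  two : ∀ a b c d, r a b → r c d → r a d ∨ r c b

/-- `H` is isomorphic to a suborder (induced substructure) of `r`. -/
def Embeds {V W : Type} (H : V → V → Prop) (r : W → W → Prop) : Prop :=
  ∃ f : V → W, Function.Injective f ∧ ∀ u v, r (f u) (f v) ↔ H u v

/-- Interval orders without suborder isomorphic to `H`. -/
def Omits {V : Type} (H : V → V → Prop) (r : ℕ → ℕ → Prop) : Prop :=
  IntervalOrder r ∧ ¬ Embeds H r

/-- An interval order with elements `a`, `c` such that all relations come from `a` or go to `c`. -/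
def Slim {V : Type} (H : V → V → Prop) : Prop :=
  IntervalOrder H ∧ ∃ a c, ∀ x y, H x y → x = a ∨ y = c

/-- The order `N` with the elements `0, 1, 2, 3` and the relations `0 < 1`, `0 < 2`, `3 < 2`. -/
def orderN (m n : Fin 4) : Prop := (m = 0 ∧ (n = 1 ∨ n = 2)) ∨ (m = 3 ∧ n = 2)

/-- The bull with infinitely many isolated points: the relations are `0 < 2 < 1`, `0 < 1`, `0 < 3`,
`4 < 1`. (The incomparability graph of its first five elements is the graph called bull: the
triangle `2, 3, 4` with the pendant edges `1 - 3` and `0 - 4`.) -/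
def bull (m n : ℕ) : Prop := (m = 0 ∧ (n = 1 ∨ n = 2 ∨ n = 3)) ∨ (n = 1 ∧ (m = 2 ∨ m = 4))

/-- `X` is a module of `r`: no point outside of `X` distinguishes two points of `X`. -/
def IsModule (r : ℕ → ℕ → Prop) (X : Set ℕ) : Prop :=
  ∀ u ∈ X, ∀ v ∈ X, ∀ w, w ∉ X → (r u w ↔ r v w) ∧ (r w u ↔ r w v)

/-- All modules with at least two points are the whole structure. -/
def IsPrime (r : ℕ → ℕ → Prop) : Prop := ∀ X : Set ℕ, IsModule r X → X.Subsingleton ∨ X = Set.univ

/-- An irreflexive relation all of whose infinite prime substructures are interval orders without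
suborder isomorphic to `H`. -/
structure PartsOmit {V : Type} (H : V → V → Prop) (r : ℕ → ℕ → Prop) : Prop where
  irrefl : ∀ u, ¬ r u u
  parts : ∀ e : ℕ → ℕ, Function.Injective e → IsPrime (fun u v => r (e u) (e v)) →
    Omits H fun u v => r (e u) (e v)

/-! ### Proofs -/

private theorem io {r : ℕ → ℕ → Prop} : IntervalOrder r ↔ H87IV.IvO r :=
  ⟨fun h => ⟨h.irrefl, h.two⟩, fun h => ⟨h.irr, h.fer⟩⟩

private theorem pv {X : Type} [TopologicalSpace X] [MeasurableSpace X] (E : X → X → Prop)
    (K : X → Prop) : Dichotomy E K ↔ W889.VC.VCof True E K := by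
  constructor
  · intro h B h1 h2 h3
    rcases h B h1 h2 h3 with ⟨f, hf⟩ | ⟨g, h3, h4, h5⟩
    · exact Or.inl ⟨f, hf⟩
    · exact Or.inr ⟨g, fun _ => h3, h4, h5⟩
  · intro h B h1 h2 h3
    rcases h B h1 h2 h3 with ⟨f, hf⟩ | ⟨g, h3, h4, h5⟩
    · exact Or.inl ⟨f, hf⟩
    · exact Or.inr ⟨g, h3 trivial, h4, h5⟩

private theorem slim_iff {V : Type} (H : V → V → Prop) : Slim H ↔ H87IV.FS.Slim H :=
  ⟨fun h => ⟨h.1.irrefl, h.1.two, h.2⟩, fun h => ⟨⟨h.irr, h.fer⟩, h.two⟩⟩

private theorem faith {V : Type} [Nonempty V] {H : V → V → Prop} (hH : ¬ Slim H) :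
    FaithfullyComplete RelIso (fun y => Omits H fun u v => y u v = true) := by
  have h : W889.VC.Faithful W889.VC.BIso
      (fun y => W889.VC.IntervalOrder y ∧ ¬ H87IV.FS.Emb H (H87IV.FS.pr y)) :=
    H87IV.FS.faith_of_not_slim fun h => hH ((slim_iff H).2 h)
  have h2 := h.mono (K' := fun y => Omits H fun u v => y u v = true) (by
    rintro y ⟨h1, h2⟩
    exact ⟨⟨fun u k => by rw [h1.irrefl] at k; exact absurd k (by decide), h1.two⟩, h2⟩)
  exact h2

private theorem nfree {n : ℕ} {H : Fin n → Fin n → Prop} (hI : IntervalOrder H)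
    (h : ¬ Embeds orderN H) : ¬ ∃ p q r s, H p q ∧ H p r ∧ H s r ∧ ¬ H s q ∧ ¬ H q r ∧ ¬ H r q ∧
      ¬ H p s ∧ ¬ H s p := by
  rintro ⟨p, q, r, s, h1, h2, h3, h4, h5, h6, h7, h8⟩
  have tr : ∀ a b c, H a b → H b c → H a c := by
    intro a b c k1 k2
    rcases hI.two a b b c k1 k2 with k | k
    · exact k
    · exact absurd k (hI.irrefl b)
  have m1 : ¬ H q p := fun k => hI.irrefl _ (tr _ _ _ k h1)
  have m2 : ¬ H r p := fun k => hI.irrefl _ (tr _ _ _ k h2)
  have m3 : ¬ H r s := fun k => hI.irrefl _ (tr _ _ _ k h3)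
  have m4 : ¬ H q s := fun k => h7 (tr _ _ _ h1 k)
  have i0 := hI.irrefl
  have rel : ∀ i j : Fin 4, H (![p, q, r, s] i) (![p, q, r, s] j) ↔ orderN i j := by
    intro i j
    fin_cases i <;> fin_cases j <;> simp [orderN, h1, h2, h3, h4, h5, h6, h7, h8, m1, m2, m3, m4, i0]
  refine h ⟨![p, q, r, s], ?_, rel⟩
  intro i j hij
  have e1 : ∀ l : Fin 4, orderN i l ↔ orderN j l := fun l => by rw [← rel, ← rel, hij]
  have e2 : ∀ l : Fin 4, orderN l i ↔ orderN l j := fun l => by rw [← rel, ← rel, hij]
  revert e1 e2
  clear hij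
  fin_cases i <;> fin_cases j <;> simp [orderN, Fin.forall_fin_succ]

private theorem pos {n : ℕ} {H : Fin n → Fin n → Prop}
    (hH : (Slim H ∧ ¬ Embeds orderN H) ∨ Embeds H bull) : H87IV.FS.Pos H := by
  rcases hH with ⟨h1, h2⟩ | h1
  · exact Or.inl ⟨(slim_iff H).1 h1, nfree h1.1 h2⟩
  · exact Or.inr h1

private theorem dich {n : ℕ} {H : Fin n → Fin n → Prop} (hH : H87IV.FS.Pos H) :
    Dichotomy UIso (fun x : URel => PartsOmit H fun u v => x.1 u v = true) := by
  have key : ∀ (σ : Equiv.Perm ℕ) (x y : URel),
      ((∀ m n, y.1 (σ m) (σ n) = x.1 m n) ∧ ∀ i m, y.2 i (σ m) = x.2 i m) ↔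
        y = H87IV.a1 σ x := by
    intro σ x y
    constructor
    · rintro ⟨h1, h2⟩
      refine Prod.ext ?_ ?_
      · funext m n
        have h3 := h1 (σ⁻¹ m) (σ⁻¹ n)
        rw [show σ (σ⁻¹ m) = m from σ.apply_symm_apply m,
          show σ (σ⁻¹ n) = n from σ.apply_symm_apply n] at h3
        exact h3
      · funext i m
        have h3 := h2 i (σ⁻¹ m)
        rw [show σ (σ⁻¹ m) = m from σ.apply_symm_apply m] at h3
        exact h3
    · rintro rfl
      refine ⟨fun m n => ?_, fun i m => ?_⟩
      · show x.1 (σ⁻¹ (σ m)) (σ⁻¹ (σ n)) = x.1 m n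
        simp
      · show x.2 i (σ⁻¹ (σ m)) = x.2 i m
        simp
  intro B hB hi hK
  rcases H87IV.FS.dich_pos hH B hB (fun x hx σ => (hi x _ ⟨σ, (key σ x _).2 rfl⟩).1 hx)
    (fun x hx => ⟨(hK x hx).irrefl, fun e he hp => by
      obtain ⟨k1, k2⟩ := (hK x hx).parts e he hp
      exact ⟨io.1 k1, k2⟩⟩) with ⟨f, hf⟩ | ⟨g, h1, h2, h3⟩
  · left
    refine ⟨f, fun x hx => ?_⟩
    obtain ⟨n, σ, hn⟩ := hf x hx
    exact ⟨n, σ, (key _ _ _).2 hn⟩
  · right
    refine ⟨g, h1, h2, fun s t h => h3 s t ?_⟩
    obtain ⟨σ, h⟩ := h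
    exact ⟨σ, (key _ _ _).1 h⟩

private theorem plain {K : (ℕ → ℕ → Prop) → Prop}
    (h : Dichotomy UIso (fun x : URel => K fun u v => x.1 u v = true)) :
    Dichotomy RelIso (fun x : Rel => K fun u v => x u v = true) := by
  intro B hB hi hK
  have hz : MeasurableSet {z : URel | ∀ i u, z.2 i u = false} := by
    have : {z : URel | ∀ i u, z.2 i u = false} = ⋂ i : ℕ, ⋂ u : ℕ, {z : URel | z.2 i u = false} := by
      ext z
      simp
    rw [this]
    refine MeasurableSet.iInter fun i => MeasurableSet.iInter fun u => ?_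
    have h1 : Measurable fun z : URel => z.2 i u :=
      (measurable_pi_apply u).comp ((measurable_pi_apply i).comp measurable_snd)
    exact h1 (measurableSet_singleton false)
  rcases h {z | z.1 ∈ B ∧ ∀ i u, z.2 i u = false} ((measurable_fst hB).inter hz) (by
      rintro x y ⟨σ, h1, h2⟩
      have e1 := hi x.1 y.1 ⟨σ, h1⟩
      refine ⟨fun k => ⟨e1.1 k.1, fun i u => ?_⟩, fun k => ⟨e1.2 k.1, fun i u => ?_⟩⟩
      · have := h2 i (σ.symm u)
        rw [σ.apply_symm_apply] at this
        rw [this]
        exact k.2 _ _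
      · rw [← h2]
        exact k.2 _ _) (fun x hx => hK _ hx.1) with ⟨f, hf⟩ | ⟨g, h1, h2, h3⟩
  · left
    refine ⟨fun n => (f n).1, fun x hx => ?_⟩
    obtain ⟨n, σ, h4, -⟩ := hf (x, fun _ _ => false) ⟨hx, fun _ _ => rfl⟩
    exact ⟨n, σ, h4⟩
  · right
    refine ⟨fun c => (g c).1, continuous_fst.comp h1, fun c => (h2 c).1, fun c d hcd => h3 c d ?_⟩
    obtain ⟨σ, h4⟩ := hcd
    exact ⟨σ, h4, fun i m => by rw [(h2 c).2, (h2 d).2]⟩

private theorem parts {V : Type} {H : V → V → Prop} {r : ℕ → ℕ → Prop} (h : Omits H r) :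
    PartsOmit H r := by
  refine ⟨h.1.irrefl, fun e he _ => ⟨⟨fun u => h.1.irrefl _, fun a b c d => h.1.two _ _ _ _⟩, ?_⟩⟩
  rintro ⟨f, h1, h2⟩
  exact h.2 ⟨fun v => e (f v), fun u v huv => h1 (he huv), h2⟩

private theorem mono {X : Type} [TopologicalSpace X] [MeasurableSpace X] {E : X → X → Prop}
    {K K' : X → Prop} (h : Dichotomy E K) (hK : ∀ x, K' x → K x) : Dichotomy E K' :=
  fun B h1 h2 h3 => h B h1 h2 fun x hx => hK x (h3 x hx)

/-- **Theorem.** (1) If `H` is not a slim interval order, then the interval orders without suborder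
`H` are faithfully complete, and the dichotomy for them is equivalent to the dichotomy for all
countable structures. (2) If `H` is a finite slim interval order without suborder `N`, or a finite
suborder of the bull with isolated points, then the dichotomy, also with unary predicates, holds for
the relations whose infinite prime parts are interval orders without suborder `H`, and so for the
interval orders without suborder `H`. -/
theorem result :
    (∀ {V : Type} [Nonempty V] (H : V → V → Prop), ¬ Slim H →
      FaithfullyComplete RelIso (fun y => Omits H fun u v => y u v = true) ∧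
      (Dichotomy RelIso (fun y => Omits H fun u v => y u v = true) ↔
        ∀ a : ℕ → ℕ, Dichotomy (Iso (a := a)) (fun _ => True))) ∧
    (∀ (n : ℕ) (H : Fin n → Fin n → Prop), (Slim H ∧ ¬ Embeds orderN H) ∨ Embeds H bull →
      (Dichotomy UIso (fun x => PartsOmit H fun u v => x.1 u v = true) ∧
        Dichotomy RelIso (fun x => PartsOmit H fun u v => x u v = true)) ∧
      (∀ r : ℕ → ℕ → Prop, Omits H r → PartsOmit H r) ∧
      Dichotomy UIso (fun x => Omits H fun u v => x.1 u v = true) ∧
      Dichotomy RelIso (fun x => Omits H fun u v => x u v = true)) := by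
  refine ⟨fun {V} _ H hH => ⟨faith hH, ?_, ?_⟩, fun n H hH => ?_⟩
  · intro h a
    rw [pv] at h ⊢
    have h3 : W889.VC.Faithful RelIso (fun y => Omits H fun u v => y u v = true) := faith hH
    exact h3.vaught True h a
  · intro h
    have h3 := h fun _ => 2
    rw [pv] at h3 ⊢
    exact W889.VC.down_bin True _ (fun _ => True) (fun _ _ => trivial) h3
  · have h1 := dich (pos hH)
    have h2 := mono h1 (K' := fun x => Omits H fun u v => x.1 u v = true) fun x hx => parts hx
    exact ⟨⟨h1, plain h1⟩, fun r hr => parts hr, h2, plain h2⟩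

end Pool.Agent.Results.MP_5607ba_lc.ForbiddenSuborder
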