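import Pool.Agent.H87IV.Cls

set_option autoImplicit false

/-!
# Interval orders and interval graphs with bounded nesting

`Sym(ℕ)` acts on the binary relations on `ℕ` with countably many unary predicates. The
countable-or-perfect dichotomy holds for the orbits in the invariant Borel sets of

* interval orders, and interval graphs, in which for some `k` (which may depend on the structure)
  there are no `k` intervals nested in each other; for example if the antichains, respectively the
  cliques, have at most `k` elements (no bound on their number of neighbours), or if there is a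
  representation by intervals of at most `k` different lengths;
* more generally, relations all of whose infinite prime parts (substructures without nontrivial
  modules) are interval orders, or interval graphs, which are unions of finitely many families of
  intervals, each without nested pairs or totally nested.

The case of bounded nesting (finitely many families without nested pairs) is contained in the
starting result `MP_5df2c5_lc.PermutationAndIntervalGraphs`; the totally nested families are new.

Proof. By the starting theorem `ModularDecomposition` the infinite prime parts suffice. A prime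
interval graph has two orientations (the infinite form of Gallai's theorem is in the starting files),
which are found by the forcing relation from one pair of nonadjacent points. A prime interval order
is coded by the linear orders of the left and of the right endpoints: they are opposite exactly on
the nested pairs, and the relation is monotone in each argument for one of them, so that the
starting theorem `SeveralOrders` applies.
-/

namespace Pool.Agent.Results.MP_5607ba_lc.NestedIntervals

/-- Structures on `ℕ` with a binary relation `x.1` and unary predicates `x.2 0, x.2 1, ...`. -/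
abbrev Structures : Type := (ℕ → ℕ → Bool) × (ℕ → ℕ → Bool)

/-- `σ` is an isomorphism from `x` to `y`. -/
def IsIso (σ : Equiv.Perm ℕ) (x y : Structures) : Prop :=
  (∀ m n, y.1 (σ m) (σ n) = x.1 m n) ∧ ∀ i m, y.2 i (σ m) = x.2 i m

/-- The countable-or-perfect dichotomy for the relations in the class `K` with unary predicates:
each invariant Borel set of such structures contains countably many isomorphism types, or there is
a continuous map from the Cantor space into it with pairwise non-isomorphic values. -/
def Dichotomy (K : (ℕ → ℕ → Prop) → Prop) : Prop :=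
  ∀ B : Set Structures, MeasurableSet B →
    (∀ x ∈ B, ∀ (y : Structures) (σ : Equiv.Perm ℕ), IsIso σ x y → y ∈ B) →
    (∀ x ∈ B, K fun m n => x.1 m n = true) →
    (∃ f : ℕ → Structures, ∀ x ∈ B, ∃ (n : ℕ) (σ : Equiv.Perm ℕ), IsIso σ (f n) x) ∨
    (∃ c : (ℕ → Bool) → Structures, Continuous c ∧ (∀ s, c s ∈ B) ∧
      ∀ s t, (∃ σ : Equiv.Perm ℕ, IsIso σ (c s) (c t)) → s = t)

/-- Interval orders: `r u v` means that the interval of `u` is to the left of the interval of
`v`. -/
structure IntervalOrder (r : ℕ → ℕ → Prop) : Prop where
  irrefl : ∀ u, ¬ r u u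
  ferrers : ∀ a b c d, r a b → r c d → r a d ∨ r c b

/-- The interval of `v` is strictly inside the interval of `u`: some interval is to the left of `v`
but not of `u`, and some interval is to the right of `v` but not of `u`. -/
def Inside (r : ℕ → ℕ → Prop) (u v : ℕ) : Prop :=
  (∃ a, r a v ∧ ¬ r a u) ∧ ∃ b, r v b ∧ ¬ r u b

/-- For some `k` there are no `k` intervals nested in each other. -/
def BoundedNesting (r : ℕ → ℕ → Prop) : Prop :=
  ∃ k, ¬ ∃ a : Fin k → ℕ, ∀ i j, i < j → Inside r (a i) (a j)

/-- The points can be divided into finitely many families (`c u` is the family of `u`), each without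
nested pairs or totally nested. -/
def FinitelyManyFamilies (r : ℕ → ℕ → Prop) : Prop := ∃ (s : ℕ) (c : ℕ → Fin s), ∀ t,
  (∀ u v, c u = t → c v = t → ¬ Inside r u v) ∨
  (∀ u v, c u = t → c v = t → u ≠ v → Inside r u v ∨ Inside r v u)

/-- `A` is the incomparability graph of `r` (the intersection graph of the intervals). -/
def IncomparabilityGraph (r A : ℕ → ℕ → Prop) : Prop := ∀ u v, A u v ↔ u ≠ v ∧ ¬ r u v ∧ ¬ r v u

/-- `X` is a module of `r`: no point outside of `X` distinguishes two points of `X`. -/
def IsModule (r : ℕ → ℕ → Prop) (X : Set ℕ) : Prop :=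
  ∀ u ∈ X, ∀ v ∈ X, ∀ w, w ∉ X → (r u w ↔ r v w) ∧ (r w u ↔ r w v)

/-- All modules with at least two points are the whole structure. -/
def IsPrime (r : ℕ → ℕ → Prop) : Prop := ∀ X : Set ℕ, IsModule r X → X.Subsingleton ∨ X = Set.univ

/-- All infinite prime substructures of `r` are in `V`. -/
def PrimePartsIn (V : (ℕ → ℕ → Prop) → Prop) (r : ℕ → ℕ → Prop) : Prop :=
  ∀ e : ℕ → ℕ, Function.Injective e → IsPrime (fun u v => r (e u) (e v)) →
    V fun u v => r (e u) (e v)

/-- Irreflexive relations whose infinite prime parts are interval orders with finitely many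
families. -/
structure Orders (r : ℕ → ℕ → Prop) : Prop where
  irrefl : ∀ u, ¬ r u u
  parts : PrimePartsIn (fun r' => IntervalOrder r' ∧ FinitelyManyFamilies r') r

/-- Graphs whose infinite prime parts are interval graphs with finitely many families. -/
structure Graphs (A : ℕ → ℕ → Prop) : Prop where
  irrefl : ∀ u, ¬ A u u
  symm : ∀ u v, A u v → A v u
  parts : PrimePartsIn
    (fun A' => ∃ r, IntervalOrder r ∧ FinitelyManyFamilies r ∧ IncomparabilityGraph r A') A

/-- The relation is represented by intervals `[l u, l u + w u]` of finitely many lengths. -/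
def FinitelyManyLengths (r : ℕ → ℕ → Prop) : Prop :=
  ∃ (l w : ℕ → ℝ) (S : Finset ℝ), (∀ u, w u ∈ S) ∧ ∀ u v, r u v ↔ l u + w u < l v

/-- The antichains have a bounded number of elements. -/
def BoundedAntichains (r : ℕ → ℕ → Prop) : Prop :=
  ∃ k, ¬ ∃ a : Fin k → ℕ, Function.Injective a ∧ ∀ i j, ¬ r (a i) (a j)

open Pool.Agent.H87IV in
private theorem io {r : ℕ → ℕ → Prop} : IntervalOrder r ↔ IvO r :=
  ⟨fun h => ⟨h.irrefl, h.ferrers⟩, fun h => ⟨h.irr, h.fer⟩⟩

private theorem conv {K : (ℕ → ℕ → Prop) → Prop}
    (h : ∀ B : Set Structures, MeasurableSet B → (∀ x ∈ B, ∀ σ, Pool.Agent.H87IV.a1 σ x ∈ B) →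
      (∀ x ∈ B, K fun m n => x.1 m n = true) → Pool.Agent.W878.VC.Dicho Pool.Agent.H87IV.a1 B) :
    Dichotomy K := by
  have key : ∀ (σ : Equiv.Perm ℕ) (x y : Structures),
      IsIso σ x y ↔ y = Pool.Agent.H87IV.a1 σ x := by
    intro σ x y
    constructor
    · rintro ⟨h1, h2⟩
      refine Prod.ext ?_ ?_
      · funext m n
        have h3 := h1 (σ⁻¹ m) (σ⁻¹ n)
        rw [show σ (σ⁻¹ m) = m from σ.apply_symm_apply m,
          show σ (σ⁻¹ n) = n from σ.apply_symm_apply n] at h3
        exact h3
      · funext i m
        have h3 := h2 i (σ⁻¹ m)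
        rw [show σ (σ⁻¹ m) = m from σ.apply_symm_apply m] at h3
        exact h3
    · rintro rfl
      refine ⟨fun m n => ?_, fun i m => ?_⟩
      · show x.1 (σ⁻¹ (σ m)) (σ⁻¹ (σ n)) = x.1 m n
        simp
      · show x.2 i (σ⁻¹ (σ m)) = x.2 i m
        simp
  intro B hB hi hK
  rcases h B hB (fun x hx σ => hi x hx _ σ ((key σ x _).2 rfl)) hK with ⟨f, hf⟩ | ⟨g, h1, h2, h3⟩
  · left
    refine ⟨f, fun x hx => ?_⟩
    obtain ⟨n, σ, hn⟩ := hf x hx
    exact ⟨n, σ, (key _ _ _).2 hn⟩
  · right
    refine ⟨g, h1, h2, fun s t h => h3 s t ?_⟩
    obtain ⟨σ, h⟩ := h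
    exact ⟨σ, (key _ _ _).1 h⟩

/-- **Theorem.** (1) The dichotomy holds for the relations all of whose infinite prime parts are
interval orders with finitely many families, and for the graphs all of whose infinite prime parts
are interval graphs with finitely many families; (2) all interval orders with bounded nesting and
their incomparability graphs are such relations and graphs; (3) the nesting is bounded if the
antichains are bounded or if there are finitely many lengths. -/
theorem result :
    (Dichotomy Orders ∧ Dichotomy Graphs) ∧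
    (∀ r : ℕ → ℕ → Prop, IntervalOrder r → BoundedNesting r →
      Orders r ∧ ∀ A, IncomparabilityGraph r A → Graphs A) ∧
    (∀ r : ℕ → ℕ → Prop, IntervalOrder r → BoundedAntichains r ∨ FinitelyManyLengths r →
      BoundedNesting r) := by
  refine ⟨⟨conv fun B hB hi hK => ?_, conv fun B hB hi hK => ?_⟩, fun r h1 h2 => ?_,
    fun r h1 h2 => ?_⟩
  · refine H87IV.dich_orders B hB hi fun x hx => ⟨(hK x hx).irrefl, fun e he hp => ?_⟩
    obtain ⟨h1, h2⟩ := (hK x hx).parts e he hp
    exact ⟨io.1 h1, h2⟩
  · refine H87IV.dich_graphs B hB hi fun x hx => ⟨(hK x hx).irrefl, fun e he hp => ?_⟩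
    obtain ⟨r, h1, h2, h3⟩ := (hK x hx).parts e he hp
    exact ⟨r, ⟨io.1 h1, h2⟩, h3⟩
  · obtain ⟨k, hk⟩ := h2
    constructor
    · have h3 := H87IV.prm_parts (io.1 h1) hk
      exact ⟨h3.irr, fun e he hp => ⟨io.2 (h3.prm e he hp).io, (h3.prm e he hp).pcs⟩⟩
    · intro A hA
      have h3 := H87IV.prm_parts_graph (io.1 h1) hA hk
      refine ⟨h3.irr, fun u v huv => ?_, fun e he hp => ?_⟩
      · rw [hA] at huv ⊢
        exact ⟨huv.1.symm, huv.2.2, huv.2.1⟩
      · obtain ⟨r', h4, h5⟩ := h3.prm e he hp
        exact ⟨r', io.2 h4.io, h4.pcs, h5⟩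
  · rcases h2 with ⟨k, hk⟩ | ⟨l, w, S, h3, h4⟩
    · exact ⟨k, H87IV.shallow_of_antichain (io.1 h1) hk⟩
    · exact ⟨_, H87IV.shallow_of_lengths l w S h3 h4⟩

end Pool.Agent.Results.MP_5607ba_lc.NestedIntervals
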