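import Pool.Agent.H16VC.PU6

set_option autoImplicit false

/-!
# The countable-or-perfect dichotomy for Polish ultrametric spaces up to isometry

A nonempty Polish metric space is coded by the matrix of the distances of a dense sequence (points
may be repeated). We prove the countable-or-perfect dichotomy for all isometry-invariant Borel sets of
codes of Polish ultrametric spaces: there are countably many spaces up to isometry, or there is a
continuous family of pairwise non-isometric spaces indexed by the Cantor space.

Proof. The closed balls of radius `2 ^ (-n)`, each with infinitely many copies, form a countable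
labelled metric space which satisfies the four point condition, and which determines the Polish
space. The structures that arise in this way form a Borel class, and a Polish ultrametric space can be
recovered from the structure by a Borel map. The theorem on the dichotomy for labelled countable metric
spaces with the four point condition (`HyperbolicIsometries`) applies.
-/

namespace Pool.Agent.Results.MP_5607ba_lc.PolishUltrametric

/-- `x` satisfies the axioms of an ultrametric, but different points may have distance `0`. These are
the codes of the nonempty Polish ultrametric spaces: `x` is the matrix of the distances of a dense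
sequence, in which points may be repeated. -/
structure UltrametricCode (x : ℕ → ℕ → ℝ) : Prop where
  self : ∀ m, x m m = 0
  symm : ∀ m n, x m n = x n m
  ultra : ∀ m n k, x m k ≤ max (x m n) (x n k)

/-- `x` and `y` are codes of the same complete metric space `X`, that is, of isometric spaces. -/
def SameSpace (x y : ℕ → ℕ → ℝ) : Prop :=
  ∃ (X : Type) (_ : MetricSpace X) (_ : CompleteSpace X) (a b : ℕ → X),
    DenseRange a ∧ DenseRange b ∧ (∀ m n, dist (a m) (a n) = x m n) ∧
    ∀ m n, dist (b m) (b n) = y m n

/-- **Theorem.** Let `B` be a Borel set of codes of Polish ultrametric spaces that contains with `x`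
all codes of spaces isometric to the space coded by `x`. Then `B` contains codes of only countably
many spaces up to isometry, or there is a continuous map from the Cantor space to `B` whose values at
different points are codes of non-isometric spaces. -/
theorem result (B : Set (ℕ → ℕ → ℝ)) (hB : MeasurableSet B) (hU : ∀ x ∈ B, UltrametricCode x)
    (hinv : ∀ x ∈ B, ∀ y, SameSpace x y → y ∈ B) :
    (∃ f : ℕ → ℕ → ℕ → ℝ, ∀ x ∈ B, ∃ n, SameSpace (f n) x) ∨
    (∃ g : (ℕ → Bool) → ℕ → ℕ → ℝ, Continuous g ∧ (∀ c, g c ∈ B) ∧
      ∀ c d, SameSpace (g c) (g d) → c = d) := by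
  have hsymm : ∀ x y, SameSpace x y → SameSpace y x := by
    rintro x y ⟨X, m, c, a, b, h1, h2, h3, h4⟩
    exact ⟨X, m, c, b, a, h2, h1, h4, h3⟩
  have hu : ∀ x, UltrametricCode x ↔ H16VC.PU.Ultra x :=
    fun x => ⟨fun h => ⟨h.self, h.symm, h.ultra⟩, fun h => ⟨h.self, h.symm, h.ultra⟩⟩
  haveI := H16VC.PU.borel_W
  have h := H16VC.transfer2 (E := SameSpace) (K := H16VC.PU.Ultra) H16VC.PU.phi H16VC.PU.psi
    H16VC.PU.meas_psi H16VC.PU.Cls H16VC.PU.meas_cls (fun _ _ h => h.symm)
    (fun _ _ _ h h' => h.trans h') (fun _ _ h hx => hx.iso h) (fun y hy => H16VC.PU.cls_phi hy)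
    (fun x hx => hx.ultra_psi) (fun x hx => H16VC.PU.iso_phi_psi hx)
    (fun y z hy hz => ⟨fun h => H16VC.PU.iso_of_ss hy h, fun h => H16VC.PU.ss_of_iso hy hz h⟩)
    (fun x hx => hx.hyp) H16VC.PU.vc_W
  rcases h B hB (fun x y hxy => ⟨fun hx => hinv x hx y hxy, fun hy => hinv y hy x (hsymm x y hxy)⟩)
    (fun x hx => (hu x).1 (hU x hx)) with ⟨f, hf⟩ | ⟨g, h1, h2, h3⟩
  · exact Or.inl ⟨f, hf⟩
  · exact Or.inr ⟨g, h1 trivial, h2, h3⟩

end Pool.Agent.Results.MP_5607ba_lc.PolishUltrametric
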